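import Mathlib
import Pool.Agent.V11102.KP.Basic
import Pool.Agent.V11102.KP.Sing

/-!
A singular quasi-linear map `Ω` on `ℓ²` with a compatible pair `(T, U)` for which `T - U` is not
compact.
-/

set_option autoImplicit false

namespace Pool.Agent.Results.MP_d3af15_an.NonCompactDifference

open scoped ENNReal
open Filter Topology

/-- The real Hilbert space `ℓ²`. -/
abbrev H : Type := lp (fun _ : ℕ => ℝ) 2

/-- `Ω` is quasi-linear: homogeneous, with `‖Ω(x+y) - Ω x - Ω y‖ ≤ Q (‖x‖ + ‖y‖)`. -/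
def IsQuasiLinear (Ω : H → H) : Prop :=
  (∀ (c : ℝ) (x : H), Ω (c • x) = c • Ω x) ∧
    ∃ Q : ℝ, ∀ x y : H, ‖Ω (x + y) - Ω x - Ω y‖ ≤ Q * (‖x‖ + ‖y‖)

/-- `Φ` is trivial on the subspace `W`: it is at finite distance from a linear map on `W`. -/
def IsTrivialOn (W : Submodule ℝ H) (Φ : H → H) : Prop :=
  ∃ (L : W →ₗ[ℝ] H) (C : ℝ), ∀ x : W, ‖Φ x - L x‖ ≤ C * ‖x‖

/-- `Ω` is singular: it is not trivial on any infinite-dimensional closed subspace. -/
def IsSingular (Ω : H → H) : Prop :=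
  ∀ W : Submodule ℝ H, IsClosed (W : Set H) → ¬ FiniteDimensional ℝ W → ¬ IsTrivialOn W Ω

/-- The pair `(T, U)` is compatible with `Ω`: the map `ΩU - TΩ` is trivial on `ℓ²`. -/
def IsCompatible (Ω : H → H) (T U : H →L[ℝ] H) : Prop :=
  IsTrivialOn ⊤ (fun x => Ω (U x) - T (Ω x))

open Pool.Agent.V11102.KP (Bd K0 exists_ext not_trivial K0_quasi K0_smul sq_sum_le norm_le_of_sum)

/-! ### Weighted operators -/

/-- multiplication by a bounded sequence -/
noncomputable def dg (w : ℕ → ℝ) (B : ℝ) (hB : 0 ≤ B) (hw : ∀ n, |w n| ≤ B) : H →L[ℝ] H :=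
  have key : ∀ (x : H) (s : Finset ℕ), ∑ i ∈ s, (w i * x i) ^ 2 ≤ (B * ‖x‖) ^ 2 := by
    intro x s
    calc ∑ i ∈ s, (w i * x i) ^ 2 ≤ ∑ i ∈ s, B ^ 2 * (x i) ^ 2 := by
          apply Finset.sum_le_sum
          intro i _
          rw [mul_pow]
          apply mul_le_mul_of_nonneg_right _ (sq_nonneg _)
          rw [← sq_abs]
          exact pow_le_pow_left₀ (abs_nonneg _) (hw i) 2
      _ = B ^ 2 * ∑ i ∈ s, (x i) ^ 2 := by rw [Finset.mul_sum]
      _ ≤ B ^ 2 * ‖x‖ ^ 2 := mul_le_mul_of_nonneg_left (sq_sum_le x s) (sq_nonneg _)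
      _ = (B * ‖x‖) ^ 2 := by ring
  have mem : ∀ x : H, Memℓp (fun n => w n * x n) 2 := fun x => by
    apply memℓp_gen' (C := (B * ‖x‖) ^ 2)
    intro s
    have h1 := key x s
    simp only [mul_pow] at h1
    simpa [mul_pow] using h1
  LinearMap.mkContinuous
    { toFun := fun x => (⟨fun n => w n * x n, mem x⟩ : H)
      map_add' := fun x y => by
        ext n
        show w n * (x n + y n) = w n * x n + w n * y n
        ring
      map_smul' := fun c x => by
        ext n
        show w n * (c * x n) = c * (w n * x n)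
        ring } B (fun x => by
      apply norm_le_of_sum _ (by positivity)
      intro s
      exact key x s)

theorem dg_apply (w : ℕ → ℝ) (B : ℝ) (hB : 0 ≤ B) (hw : ∀ n, |w n| ≤ B) (x : H) (n : ℕ) :
    dg w B hB hw x n = w n * x n := rfl

/-- the right shift of a sequence -/
def sh (f : ℕ → ℝ) : ℕ → ℝ
  | 0 => 0
  | n + 1 => f n

theorem sh_sum (f : ℕ → ℝ) (K : ℝ) (h : ∀ s : Finset ℕ, ∑ i ∈ s, (f i) ^ 2 ≤ K)
    (s : Finset ℕ) : ∑ i ∈ s, (sh f i) ^ 2 ≤ K := by
  classical
  let t : Finset ℕ := (s.filter (fun i => i ≠ 0)).image (fun i => i - 1)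
  have h1 : ∑ i ∈ s, (sh f i) ^ 2 = ∑ i ∈ s.filter (fun i => i ≠ 0), (sh f i) ^ 2 := by
    rw [Finset.sum_filter]
    apply Finset.sum_congr rfl
    intro i _
    split_ifs with hi
    · rfl
    · push Not at hi
      rw [hi]
      simp [sh]
  have h2 : ∑ i ∈ s.filter (fun i => i ≠ 0), (sh f i) ^ 2 = ∑ j ∈ t, (f j) ^ 2 := by
    rw [Finset.sum_image]
    · apply Finset.sum_congr rfl
      intro i hi
      have h3 := (Finset.mem_filter.mp hi).2
      obtain ⟨j, rfl⟩ := Nat.exists_eq_succ_of_ne_zero h3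
      rfl
    · intro i hi j hj hij
      have h3 := (Finset.mem_filter.mp hi).2
      have h4 := (Finset.mem_filter.mp hj).2
      have h5 : i - 1 = j - 1 := hij
      omega
  rw [h1, h2]
  exact h t

/-- the right shift on `ℓ²` -/
noncomputable def U : H →L[ℝ] H :=
  have key : ∀ (x : H) (s : Finset ℕ), ∑ i ∈ s, (sh x i) ^ 2 ≤ ‖x‖ ^ 2 :=
    fun x s => sh_sum x _ (fun s => sq_sum_le x s) s
  have mem : ∀ x : H, Memℓp (sh x) 2 := fun x => by
    apply memℓp_gen' (C := ‖x‖ ^ 2)
    intro s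
    simpa using key x s
  LinearMap.mkContinuous
    { toFun := fun x => (⟨sh x, mem x⟩ : H)
      map_add' := fun x y => by
        ext n
        cases n with
        | zero => show (0 : ℝ) = 0 + 0; ring
        | succ n => rfl
      map_smul' := fun c x => by
        ext n
        cases n with
        | zero => show (0 : ℝ) = c * 0; ring
        | succ n => rfl } 1 (fun x => by
      rw [one_mul]
      apply norm_le_of_sum _ (norm_nonneg x)
      intro s
      exact key x s)

theorem U_zero (x : H) : U x 0 = 0 := rfl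
theorem U_succ (x : H) (n : ℕ) : U x (n + 1) = x n := rfl

theorem U_norm (x : H) : ‖U x‖ = ‖x‖ := by
  classical
  apply le_antisymm
  · apply norm_le_of_sum _ (norm_nonneg x)
    intro s
    exact sh_sum x _ (fun s => sq_sum_le x s) s
  · apply norm_le_of_sum _ (norm_nonneg _)
    intro s
    have h1 := sq_sum_le (U x) (s.image (fun i => i + 1))
    rw [Finset.sum_image (fun i _ j _ h => by
      have h' : i + 1 = j + 1 := h
      omega)] at h1
    exact h1

/-- the weights `1, 2, 1, 2, …` -/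
noncomputable def ww (n : ℕ) : ℝ := if n % 2 = 0 then 1 else 2

theorem ww_pos (n : ℕ) : 0 < ww n := by unfold ww; split_ifs <;> norm_num

theorem ww_abs (n : ℕ) : |ww n| ≤ 2 := by
  unfold ww; split_ifs <;> norm_num

theorem ww_inv (n : ℕ) : |(ww n)⁻¹| ≤ 1 := by
  unfold ww; split_ifs <;> norm_num

theorem ww_succ (n : ℕ) : 1 / 2 ≤ |ww (n + 1) * (ww n)⁻¹ - 1| := by
  unfold ww
  rcases Nat.mod_two_eq_zero_or_one n with h | h
  · have h1 : (n + 1) % 2 ≠ 0 := by omega
    rw [if_pos h, if_neg h1]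
    norm_num
  · have h1 : (n + 1) % 2 = 0 := by omega
    have h2 : n % 2 ≠ 0 := by omega
    rw [if_pos h1, if_neg h2]
    norm_num [abs_of_nonneg, abs_of_nonpos]

/-- the diagonal operator with weights `1, 2, 1, 2, …` -/
noncomputable def D : H →L[ℝ] H := dg ww 2 (by norm_num) ww_abs

/-- its inverse -/
noncomputable def D' : H →L[ℝ] H := dg (fun n => (ww n)⁻¹) 1 (by norm_num) ww_inv

theorem D_apply (x : H) (n : ℕ) : D x n = ww n * x n := rfl
theorem D'_apply (x : H) (n : ℕ) : D' x n = (ww n)⁻¹ * x n := rfl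

theorem D'_D (x : H) : D' (D x) = x := by
  ext n
  rw [D'_apply, D_apply, ← mul_assoc, inv_mul_cancel₀ (ww_pos n).ne', one_mul]

/-- the operator `T = D U D⁻¹` -/
noncomputable def T : H →L[ℝ] H := D.comp (U.comp D')

theorem T_succ (x : H) (n : ℕ) : T x (n + 1) = ww (n + 1) * ((ww n)⁻¹ * x n) := rfl
theorem T_zero (x : H) : T x 0 = 0 := by
  show ww 0 * (0 : ℝ) = 0
  rw [mul_zero]

theorem not_compact : ¬ IsCompactOperator (fun x => T x - U x) := by
  intro h
  have hcl : IsCompact (closure ((fun x => T x - U x) '' Metric.closedBall (0 : H) 1)) := by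
    have h' : IsCompactOperator ((T - U : H →L[ℝ] H) : H →ₗ[ℝ] H) := h
    exact h'.isCompact_closure_image_closedBall 1
  let e : ℕ → H := fun n => lp.single 2 n (1 : ℝ)
  have he : ∀ n, e n ∈ Metric.closedBall (0 : H) 1 := by
    intro n
    rw [mem_closedBall_zero_iff]
    show ‖(lp.single 2 n (1 : ℝ) : H)‖ ≤ 1
    rw [lp.norm_single (by norm_num)]
    simp
  have hval : ∀ n m, (T (e n) - U (e n)) (m + 1) =
      if m = n then ww (n + 1) * (ww n)⁻¹ - 1 else 0 := by
    intro n m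
    show T (e n) (m + 1) - U (e n) (m + 1) = _
    rw [T_succ, U_succ]
    have h1 : (e n) m = if m = n then (1 : ℝ) else 0 := by
      show (lp.single 2 n (1 : ℝ) : H) m = _
      rw [lp.single_apply, Pi.single_apply]
    rw [h1]
    split_ifs with h2
    · rw [h2]; ring
    · ring
  obtain ⟨y, -, φ, hφ, hlim⟩ := hcl.tendsto_subseq
    (x := fun n => T (e n) - U (e n)) (fun n => subset_closure ⟨e n, he n, rfl⟩)
  have hc := hlim.cauchySeq
  rw [Metric.cauchySeq_iff] at hc
  obtain ⟨N, hN⟩ := hc (1 / 2) (by norm_num)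
  have h1 := hN N le_rfl (N + 1) (Nat.le_succ N)
  rw [dist_eq_norm] at h1
  have h2 : 1 / 2 ≤ ‖((fun n => T (e n) - U (e n)) ∘ φ) N -
      ((fun n => T (e n) - U (e n)) ∘ φ) (N + 1)‖ := by
    have h3 := sq_sum_le (((fun n => T (e n) - U (e n)) ∘ φ) N -
      ((fun n => T (e n) - U (e n)) ∘ φ) (N + 1)) {φ N + 1}
    rw [Finset.sum_singleton] at h3
    have h4 : (((fun n => T (e n) - U (e n)) ∘ φ) N -
      ((fun n => T (e n) - U (e n)) ∘ φ) (N + 1) : H) (φ N + 1) =
        ww (φ N + 1) * (ww (φ N))⁻¹ - 1 := by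
      show (T (e (φ N)) - U (e (φ N))) (φ N + 1) -
        (T (e (φ (N + 1))) - U (e (φ (N + 1)))) (φ N + 1) = _
      rw [hval, hval, if_pos rfl, if_neg (hφ (Nat.lt_succ_self N)).ne, sub_zero]
    rw [h4] at h3
    have h5 := ww_succ (φ N)
    have h6 := abs_le_of_sq_le_sq h3 (norm_nonneg _)
    exact h5.trans h6
  linarith

/-- There are a singular quasi-linear map `Ω` on `ℓ²` and a pair `(T, U)` of operators compatible
with `Ω` such that `T - U` is not compact. -/
theorem result : ∃ Ω : H → H, IsQuasiLinear Ω ∧ IsSingular Ω ∧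
    ∃ T U : H →L[ℝ] H, IsCompatible Ω T U ∧ ¬ IsCompactOperator (fun x => T x - U x) := by
  obtain ⟨Λ, Ω0, hΩ⟩ := exists_ext
  refine ⟨fun x => D (Ω0 x), ⟨?_, ‖D‖ * 5, ?_⟩, ?_, T, U, ?_, not_compact⟩
  · intro c x
    have h1 : Ω0 (c • x) = c • Ω0 x := by
      ext n
      show Ω0 (c • x) n = c * Ω0 x n
      rw [hΩ, hΩ, K0_smul, map_smul]
      simp only [Pi.smul_apply, smul_eq_mul]
      ring
    show D (Ω0 (c • x)) = c • D (Ω0 x)
    rw [h1, map_smul]
  · intro x y
    have h1 : D (Ω0 (x + y)) - D (Ω0 x) - D (Ω0 y) = D (Ω0 (x + y) - Ω0 x - Ω0 y) := by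
      rw [map_sub, map_sub]
    show ‖D (Ω0 (x + y)) - D (Ω0 x) - D (Ω0 y)‖ ≤ _
    rw [h1]
    obtain ⟨h, hh, hn⟩ := K0_quasi x y
    have h2 : Ω0 (x + y) - Ω0 x - Ω0 y = h := by
      ext n
      show Ω0 (x + y) n - Ω0 x n - Ω0 y n = h n
      rw [hh, hΩ, hΩ, hΩ, map_add]
      simp only [Pi.add_apply, Pi.sub_apply]
      ring
    rw [h2]
    calc ‖D h‖ ≤ ‖D‖ * ‖h‖ := D.le_opNorm h
      _ ≤ ‖D‖ * (5 * (‖x‖ + ‖y‖)) := mul_le_mul_of_nonneg_left hn (norm_nonneg _)
      _ = ‖D‖ * 5 * (‖x‖ + ‖y‖) := by ring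
  · intro W _ hW hT
    obtain ⟨L, C, hL⟩ := hT
    -- the linear map `Λ + D' L` with values in sequences
    let M : W →ₗ[ℝ] (ℕ → ℝ) :=
      { toFun := fun x => Λ x + (D' (L x) : H)
        map_add' := fun x y => by
          funext n
          show Λ ((x : H) + (y : H)) n + D' (L (x + y)) n = _
          rw [map_add, map_add, map_add]
          show Λ x n + Λ y n + (D' (L x) n + D' (L y) n) =
            (Λ x n + D' (L x) n) + (Λ y n + D' (L y) n)
          ring
        map_smul' := fun c x => by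
          funext n
          show Λ (c • (x : H)) n + D' (L (c • x)) n = _
          rw [map_smul, map_smul, map_smul]
          show c * Λ x n + c * D' (L x) n = c * (Λ x n + D' (L x) n)
          ring }
    apply not_trivial W hW M (‖D'‖ * C)
    intro x
    refine ⟨Ω0 x - D' (L x), fun n => ?_, ?_⟩
    · show Ω0 x n - D' (L x) n = K0 x n - (Λ x n + D' (L x) n)
      rw [hΩ]; ring
    · have h1 : Ω0 x - D' (L x) = D' (D (Ω0 x) - L x) := by
        rw [map_sub, D'_D]
      rw [h1]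
      calc ‖D' (D (Ω0 x) - L x)‖ ≤ ‖D'‖ * ‖D (Ω0 x) - L x‖ := D'.le_opNorm _
        _ ≤ ‖D'‖ * (C * ‖x‖) := mul_le_mul_of_nonneg_left (hL x) (norm_nonneg _)
        _ = ‖D'‖ * C * ‖x‖ := by ring
  · -- compatibility
    have hK : ∀ (x : H) (n : ℕ), K0 (U x) (n + 1) = K0 x n := by
      intro x n
      show U x (n + 1) * (Real.log (U x (n + 1)) - Real.log ‖U x‖) = _
      rw [U_succ, U_norm]; rfl
    have hK0 : ∀ x : H, K0 (U x) 0 = 0 := by
      intro x
      show U x 0 * _ = 0
      rw [U_zero, zero_mul]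
    have hval : ∀ (x : H) (n : ℕ), (D (Ω0 (U x)) - T (D (Ω0 x)) : H) (n + 1) =
        ww (n + 1) * (Λ x n - Λ (U x) (n + 1)) := by
      intro x n
      show D (Ω0 (U x)) (n + 1) - T (D (Ω0 x)) (n + 1) = _
      rw [T_succ, D_apply, D_apply, ← mul_assoc (ww n)⁻¹, inv_mul_cancel₀ (ww_pos n).ne', one_mul,
        hΩ, hΩ, hK]
      ring
    have hval0 : ∀ x : H, (D (Ω0 (U x)) - T (D (Ω0 x)) : H) 0 = ww 0 * (- Λ (U x) 0) := by
      intro x
      show D (Ω0 (U x)) 0 - T (D (Ω0 x)) 0 = _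
      rw [T_zero, D_apply, hΩ, hK0]
      ring
    let L : H →ₗ[ℝ] H :=
      { toFun := fun x => D (Ω0 (U x)) - T (D (Ω0 x))
        map_add' := fun x y => by
          ext n
          show (D (Ω0 (U (x + y))) - T (D (Ω0 (x + y))) : H) n =
            (D (Ω0 (U x)) - T (D (Ω0 x)) : H) n + (D (Ω0 (U y)) - T (D (Ω0 y)) : H) n
          cases n with
          | zero =>
            rw [hval0, hval0, hval0, map_add, map_add]
            simp only [Pi.add_apply]
            ring
          | succ n =>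
            rw [hval, hval, hval, map_add, map_add, map_add]
            simp only [Pi.add_apply]
            ring
        map_smul' := fun c x => by
          ext n
          show (D (Ω0 (U (c • x))) - T (D (Ω0 (c • x))) : H) n =
            c * (D (Ω0 (U x)) - T (D (Ω0 x)) : H) n
          cases n with
          | zero =>
            rw [hval0, hval0, map_smul, map_smul]
            simp only [Pi.smul_apply, smul_eq_mul]
            ring
          | succ n =>
            rw [hval, hval, map_smul, map_smul, map_smul]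
            simp only [Pi.smul_apply, smul_eq_mul]
            ring }
    refine ⟨L.comp (Submodule.subtype ⊤), 0, fun x => ?_⟩
    show ‖(D (Ω0 (U x)) - T (D (Ω0 x))) - (D (Ω0 (U x)) - T (D (Ω0 x)))‖ ≤ 0 * ‖x‖
    rw [sub_self, norm_zero, zero_mul]

end Pool.Agent.Results.MP_d3af15_an.NonCompactDifference
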